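import Pool.Agent.helper36.YB.Spec
import Pool.Agent.helper74.TG.SW

/-!
# yb:MUW (MP_ad8ced_nt): Siegel-Walfisz for the Moebius function
-/

set_option autoImplicit false

open Finset
open Pool.Agent.FI Pool.Agent.HK Pool.Agent.BP
open Pool.Agent.CH (nit rgh ll2)
open Pool.Agent.SK (tr0 Th)

noncomputable section

namespace Pool.Agent.YB

/-- numbers -/
private theorem MUW_num (A : ℕ) (C y₀ : ℝ) (hC : 0 < C) : ∃ x₀ : ℝ, ∀ x : ℝ, x₀ ≤ x → 1 ≤ Real.log x ∧
    ∀ y : ℕ, Real.exp (√(Real.log x)) ≤ y → y₀ ≤ y ∧ √(Real.log x) ≤ Real.log y ∧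
      C * y / Real.log y ^ (2 * A + 6) ≤ y / Real.log x ^ (A + 2) := by
  refine ⟨Real.exp (max (max 1 C) (y₀ ^ 2)), fun x hx => ?_⟩
  have hxpos : 0 < x := (Real.exp_pos _).trans_le hx
  have hL : max (max 1 C) (y₀ ^ 2) ≤ Real.log x := by
    rw [← Real.log_exp (max (max 1 C) (y₀ ^ 2))]
    exact Real.log_le_log (Real.exp_pos _) hx
  have hL1 : 1 ≤ Real.log x := (le_max_left _ _).trans ((le_max_left _ _).trans hL)
  have hLC : C ≤ Real.log x := (le_max_right _ _).trans ((le_max_left _ _).trans hL)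
  have hLy : y₀ ^ 2 ≤ Real.log x := (le_max_right _ _).trans hL
  refine ⟨hL1, fun y hy => ?_⟩
  have hypos : (0 : ℝ) < y := (Real.exp_pos _).trans_le hy
  have h1 : √(Real.log x) ≤ Real.log y := by
    rw [← Real.log_exp (√(Real.log x))]
    exact Real.log_le_log (Real.exp_pos _) hy
  refine ⟨?_, h1, ?_⟩
  · have h2 : |y₀| ≤ √(Real.log x) := Real.abs_le_sqrt hLy
    have h3 := Real.add_one_le_exp (√(Real.log x))
    have h4 := le_abs_self y₀
    linarith
  · set L := Real.log x with hLdef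
    have hs1 : 1 ≤ √L := by
      rw [Real.one_le_sqrt]
      exact hL1
    have h5 : L ^ (A + 3) ≤ Real.log y ^ (2 * A + 6) := by
      calc L ^ (A + 3) = (√L ^ 2) ^ (A + 3) := by rw [Real.sq_sqrt (by linarith)]
        _ = √L ^ (2 * A + 6) := by
          rw [← pow_mul]
          congr 1
        _ ≤ Real.log y ^ (2 * A + 6) := pow_le_pow_left₀ (by positivity) h1 _
    have h6 : 0 < L ^ (A + 3) := by positivity
    calc C * y / Real.log y ^ (2 * A + 6) ≤ C * y / L ^ (A + 3) :=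
          div_le_div_of_nonneg_left (by positivity) h6 h5
      _ ≤ L * y / L ^ (A + 3) := by
          refine div_le_div_of_nonneg_right ?_ h6.le
          exact mul_le_mul_of_nonneg_right hLC hypos.le
      _ = y / L ^ (A + 2) := by
          have h7 : L ≠ 0 := by positivity
          rw [show A + 3 = (A + 2) + 1 from rfl, pow_succ L (A + 2)]
          field_simp

/-- nonprincipal characters -/
private theorem MUW_ne (hMWI : MWI_stmt) (A B : ℕ) : ∃ x₀ : ℝ, ∀ x : ℝ, x₀ ≤ x → ∀ q : ℕ, 2 ≤ q →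
    (q : ℝ) ≤ Real.log x ^ B → ∀ χ : DirichletCharacter ℂ q, χ ≠ 1 → ∀ u : ℕ, (u : ℝ) ≤ x →
    ‖∑ n ∈ Ioc 0 u, mg (fun n => χ (n : ZMod q)) n‖ ≤ x / Real.log x ^ A := by
  obtain ⟨x₁, H1⟩ := hMWI A
  obtain ⟨C, y₀, hC, H2⟩ := Pool.Agent.helper74.TG.psi_char (2 * A + 6) (2 * B)
  obtain ⟨x₂, H3⟩ := MUW_num A C y₀ hC
  refine ⟨max x₁ x₂, fun x hx q hq hqB χ hχ u hu => ?_⟩
  have hx1 := (le_max_left _ _).trans hx
  obtain ⟨hL1, H4⟩ := H3 x ((le_max_right _ _).trans hx)
  refine H1 x hx1 (fun n => χ (n : ZMod q)) 0 ?_ le_rfl zero_le_one ?_ u hu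
  · refine ⟨?_, ?_, fun m n => ?_, fun n => ?_⟩
    · have : Fact (1 < q) := ⟨hq⟩
      show χ ((0 : ℕ) : ZMod q) = 0
      rw [Nat.cast_zero]
      exact MulChar.map_zero χ
    · show χ ((1 : ℕ) : ZMod q) = 1
      rw [Nat.cast_one, map_one]
    · show χ ((m * n : ℕ) : ZMod q) = χ (m : ZMod q) * χ (n : ZMod q)
      rw [Nat.cast_mul, map_mul]
    · exact DirichletCharacter.norm_le_one χ _
  · intro y hy _
    obtain ⟨h1, h2, h3⟩ := H4 y hy
    have hqy : (q : ℝ) ≤ Real.log y ^ (2 * B) := by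
      refine hqB.trans ?_
      calc Real.log x ^ B = (√(Real.log x) ^ 2) ^ B := by rw [Real.sq_sqrt (by linarith)]
        _ = √(Real.log x) ^ (2 * B) := by rw [← pow_mul]
        _ ≤ Real.log y ^ (2 * B) := pow_le_pow_left₀ (by positivity) h2 _
    have h4 := H2 y h1 q hq hqy χ hχ
    rw [Nat.floor_natCast] at h4
    refine le_trans (le_of_eq ?_) (h4.trans h3)
    congr 1
    refine sum_congr rfl fun n _ => ?_
    rw [Complex.ofReal_zero, sub_zero]

/-- the sum of the Moebius function -/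
private theorem MUW_one (hMWI : MWI_stmt) (A : ℕ) : ∃ x₀ : ℝ, ∀ x : ℝ, x₀ ≤ x → ∀ u : ℕ, (u : ℝ) ≤ x →
    |((∑ n ∈ Ioc 0 u, ArithmeticFunction.moebius n : ℤ) : ℝ)| ≤ x / Real.log x ^ A := by
  obtain ⟨x₁, H1⟩ := hMWI A
  obtain ⟨C, y₀, hC, H2⟩ := Pool.Agent.helper74.TG.psi_pnt (2 * A + 6)
  obtain ⟨x₂, H3⟩ := MUW_num A C y₀ hC
  refine ⟨max x₁ x₂, fun x hx u hu => ?_⟩
  have hx1 := (le_max_left _ _).trans hx
  obtain ⟨hL1, H4⟩ := H3 x ((le_max_right _ _).trans hx)
  have key := H1 x hx1 (fun n => if n = 0 then 0 else 1) 1 ?_ zero_le_one le_rfl ?_ u hu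
  · refine le_trans (le_of_eq ?_) key
    have e : ∑ n ∈ Ioc 0 u, mg (fun n => if n = 0 then 0 else 1) n =
        (((∑ n ∈ Ioc 0 u, ArithmeticFunction.moebius n : ℤ) : ℝ) : ℂ) := by
      push_cast
      refine sum_congr rfl fun n hn => ?_
      unfold mg
      beta_reduce
      rw [if_neg (by have := (mem_Ioc.1 hn).1; omega), mul_one]
    rw [e, Complex.norm_real, Real.norm_eq_abs]
  · refine ⟨by simp, by simp, fun m n => ?_, fun n => ?_⟩
    · by_cases hm : m = 0
      · simp [hm]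
      · by_cases hn : n = 0
        · simp [hn]
        · simp [hm, hn]
    · show ‖(if n = 0 then (0 : ℂ) else 1)‖ ≤ 1
      split_ifs <;> simp
  · intro y hy _
    obtain ⟨h1, h2, h3⟩ := H4 y hy
    have h4 := H2 y h1
    rw [Nat.floor_natCast] at h4
    refine le_trans (le_of_eq ?_) (h4.trans h3)
    have e : ∑ n ∈ Ioc 0 y, ((ArithmeticFunction.vonMangoldt n : ℂ) - ((1 : ℝ) : ℂ)) * (if n = 0 then 0 else 1) =
        ((∑ n ∈ Ioc 0 y, ArithmeticFunction.vonMangoldt n - (y : ℝ) : ℝ) : ℂ) := by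
      have e1 : ∀ n ∈ Ioc 0 y, ((ArithmeticFunction.vonMangoldt n : ℂ) - ((1 : ℝ) : ℂ)) * (if n = 0 then 0 else 1) =
          ((ArithmeticFunction.vonMangoldt n - 1 : ℝ) : ℂ) := by
        intro n hn
        rw [if_neg (by have := (mem_Ioc.1 hn).1; omega), mul_one]
        push_cast
        rfl
      rw [sum_congr rfl e1, ← Complex.ofReal_sum, sum_sub_distrib]
      congr 2
      rw [sum_const, Nat.card_Ioc, nsmul_eq_mul]
      simp
    rw [e, Complex.norm_real, Real.norm_eq_abs]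

/-! ### the principal character -/

/-- the indicator of the integers all of whose prime factors are in `s` -/
private def MUW_s (s : Finset ℕ) : ArithmeticFunction ℤ :=
  ⟨fun n => if n ∈ Nat.factoredNumbers s then 1 else 0, by
    rw [if_neg]
    intro h
    exact Nat.ne_zero_of_mem_factoredNumbers h rfl⟩

/-- the Moebius function on the integers prime to `q` -/
private def MUW_m (q : ℕ) : ArithmeticFunction ℤ :=
  ⟨fun n => if n.Coprime q then ArithmeticFunction.moebius n else 0, by simp⟩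

private theorem MUW_s_apply (s : Finset ℕ) (n : ℕ) :
    MUW_s s n = if n ∈ Nat.factoredNumbers s then 1 else 0 := rfl

private theorem MUW_m_apply (q n : ℕ) :
    MUW_m q n = if n.Coprime q then ArithmeticFunction.moebius n else 0 := rfl

private theorem MUW_s_mult (s : Finset ℕ) : (MUW_s s).IsMultiplicative := by
  refine ⟨?_, fun {m n} _ => ?_⟩
  · rw [MUW_s_apply, if_pos]
    rw [Nat.mem_factoredNumbers']
    intro p hp h
    exact absurd (Nat.dvd_one.1 h) hp.one_lt.ne'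
  · rw [MUW_s_apply, MUW_s_apply, MUW_s_apply]
    have h : (m * n ∈ Nat.factoredNumbers s) ↔ (m ∈ Nat.factoredNumbers s ∧ n ∈ Nat.factoredNumbers s) := by
      rw [Nat.mem_factoredNumbers', Nat.mem_factoredNumbers', Nat.mem_factoredNumbers']
      constructor
      · intro h
        exact ⟨fun p hp hd => h p hp (Dvd.dvd.mul_right hd n), fun p hp hd => h p hp (Dvd.dvd.mul_left hd m)⟩
      · rintro ⟨h1, h2⟩ p hp hd
        rcases hp.dvd_mul.1 hd with h | h
        · exact h1 p hp h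
        · exact h2 p hp h
    by_cases h1 : m ∈ Nat.factoredNumbers s
    · by_cases h2 : n ∈ Nat.factoredNumbers s
      · rw [if_pos (h.2 ⟨h1, h2⟩), if_pos h1, if_pos h2, one_mul]
      · rw [if_neg (fun h3 => h2 (h.1 h3).2), if_neg h2, mul_zero]
    · rw [if_neg (fun h3 => h1 (h.1 h3).1), if_neg h1, zero_mul]

private theorem MUW_m_mult (q : ℕ) : (MUW_m q).IsMultiplicative := by
  refine ⟨?_, fun {m n} hmn => ?_⟩
  · rw [MUW_m_apply, if_pos (Nat.coprime_one_left q)]
    exact ArithmeticFunction.moebius_apply_one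
  · rw [MUW_m_apply, MUW_m_apply, MUW_m_apply]
    by_cases h1 : m.Coprime q
    · by_cases h2 : n.Coprime q
      · rw [if_pos (Nat.Coprime.mul_left h1 h2), if_pos h1, if_pos h2]
        exact ArithmeticFunction.isMultiplicative_moebius.map_mul_of_coprime hmn
      · rw [if_neg (fun h3 => h2 (Nat.Coprime.coprime_mul_left h3)), if_neg h2, mul_zero]
    · rw [if_neg (fun h3 => h1 (Nat.Coprime.coprime_mul_right h3)), if_neg h1, zero_mul]

private theorem MUW_s_pow (s : Finset ℕ) (p k : ℕ) (hp : p.Prime) :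
    MUW_s s (p ^ k) = if k = 0 ∨ p ∈ s then 1 else 0 := by
  rw [MUW_s_apply]
  have h : (p ^ k ∈ Nat.factoredNumbers s) ↔ (k = 0 ∨ p ∈ s) := by
    rw [Nat.mem_factoredNumbers']
    constructor
    · intro h
      by_cases hk : k = 0
      · exact Or.inl hk
      · exact Or.inr (h p hp (dvd_pow_self p hk))
    · rintro (h | h) l hl hd
      · rw [h, pow_zero] at hd
        exact absurd (Nat.dvd_one.1 hd) hl.one_lt.ne'
      · rw [(Nat.prime_dvd_prime_iff_eq hl hp).1 (hl.dvd_of_dvd_pow hd)]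
        exact h
  by_cases h1 : k = 0 ∨ p ∈ s
  · rw [if_pos (h.2 h1), if_pos h1]
  · rw [if_neg (fun h2 => h1 (h.1 h2)), if_neg h1]

/-- the identity -/
private theorem MUW_id (q : ℕ) (hq : 1 ≤ q) : MUW_s q.primeFactors * ArithmeticFunction.moebius = MUW_m q := by
  rw [mul_comm]
  refine (ArithmeticFunction.IsMultiplicative.eq_iff_eq_on_prime_powers _
    (ArithmeticFunction.isMultiplicative_moebius.mul (MUW_s_mult _)) _ (MUW_m_mult q)).2 ?_
  intro p k hp
  rw [ArithmeticFunction.mul_apply, Nat.sum_divisorsAntidiagonal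
    (f := fun a b => ArithmeticFunction.moebius a * MUW_s q.primeFactors b), Nat.sum_divisors_prime_pow hp]
  rcases k with _ | k
  · rw [zero_add, sum_range_one, pow_zero, Nat.div_one, ← pow_zero p, MUW_s_pow _ _ _ hp, if_pos (Or.inl rfl),
      MUW_m_apply, pow_zero, if_pos (Nat.coprime_one_left q), mul_one]
  · have e1 : ∀ j ∈ range (k + 1), ArithmeticFunction.moebius (p ^ (j + 1)) *
        MUW_s q.primeFactors (p ^ (k + 1) / p ^ (j + 1)) =
        if j = 0 then -(if k = 0 ∨ p ∈ q.primeFactors then (1 : ℤ) else 0) else 0 := by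
      intro j hj
      have hj' := mem_range.1 hj
      rw [ArithmeticFunction.moebius_apply_prime_pow hp (by omega),
        Nat.pow_div (by omega) hp.pos, MUW_s_pow _ _ _ hp]
      by_cases h0 : j = 0
      · subst h0
        rw [if_pos rfl, if_pos rfl, zero_add, Nat.add_sub_cancel]
        ring
      · rw [if_neg (by omega), if_neg h0, zero_mul]
    rw [sum_range_succ', sum_congr rfl e1, sum_ite_eq' (range (k + 1)) 0
      (fun _ => -(if k = 0 ∨ p ∈ q.primeFactors then (1 : ℤ) else 0)), if_pos (mem_range.2 (by omega)),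
      pow_zero, Nat.div_one, MUW_s_pow _ _ _ hp, ArithmeticFunction.moebius_apply_one, one_mul, MUW_m_apply]
    have hc : (p ^ (k + 1)).Coprime q ↔ p ∉ q.primeFactors := by
      rw [Nat.coprime_pow_left_iff (by omega), Nat.mem_primeFactors, hp.coprime_iff_not_dvd]
      constructor
      · intro h h2
        exact h h2.2.1
      · intro h h2
        exact h ⟨hp, h2, by omega⟩
    by_cases h : p ∈ q.primeFactors
    · rw [if_pos (Or.inr h), if_pos (Or.inr h), if_neg (fun h2 => (hc.1 h2) h)]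
      ring
    · rw [if_pos (hc.2 h), ArithmeticFunction.moebius_apply_prime_pow hp (by omega)]
      by_cases h0 : k = 0
      · subst h0
        rw [if_pos (Or.inl rfl), if_neg (by simpa using h), if_pos rfl]
        ring
      · rw [if_neg (by simp [h, h0]), if_neg (by simp [h]), if_neg (by omega)]
        ring

/-- `n ↦ 1/√n` -/
private def MUW_f : ℕ →* ℝ where
  toFun n := (√(n : ℝ))⁻¹
  map_one' := by simp
  map_mul' a b := by
    rw [Nat.cast_mul, Real.sqrt_mul (Nat.cast_nonneg _), mul_inv]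

private theorem MUW_euler (q : ℕ) (hq : 1 ≤ q) (T : Finset ℕ) (hT : ∀ m ∈ T, m ∈ Nat.factoredNumbers q.primeFactors) :
    ∑ m ∈ T, (√(m : ℝ))⁻¹ ≤ (q : ℝ) ^ 2 := by
  classical
  have h := (EulerProduct.summable_and_hasSum_factoredNumbers_prod_filter_prime_geometric (f := MUW_f) (by
    intro p hp
    show ‖(√(p : ℝ))⁻¹‖ < 1
    rw [norm_inv, Real.norm_eq_abs, abs_of_nonneg (Real.sqrt_nonneg _)]
    have h1 : (1 : ℝ) < p := by exact_mod_cast hp.one_lt
    refine inv_lt_one_of_one_lt₀ ?_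
    rw [Real.lt_sqrt (by norm_num)]
    linarith) q.primeFactors).2
  have h1 := sum_le_hasSum (T.subtype (fun m => m ∈ Nat.factoredNumbers q.primeFactors))
    (fun i _ => (by show 0 ≤ (√((i : ℕ) : ℝ))⁻¹; positivity)) h
  have h2 := Finset.sum_subtype_of_mem (fun m : ℕ => (√(m : ℝ))⁻¹) hT
  have h3 : ∑ m ∈ T, (√(m : ℝ))⁻¹ ≤ ∏ p ∈ q.primeFactors with p.Prime, (1 - (√(p : ℝ))⁻¹)⁻¹ := by
    rw [← h2]
    exact h1
  refine h3.trans ?_
  have hf : q.primeFactors.filter (fun p => p.Prime) = q.primeFactors :=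
    Finset.filter_true_of_mem fun p hp => Nat.prime_of_mem_primeFactors hp
  rw [hf]
  have h4 : ∏ p ∈ q.primeFactors, (1 - (√(p : ℝ))⁻¹)⁻¹ ≤ ∏ p ∈ q.primeFactors, (p : ℝ) ^ 2 := by
    have h5 : ∀ p ∈ q.primeFactors, (√(p : ℝ))⁻¹ ≤ 3 / 4 ∧ (4 : ℝ) ≤ (p : ℝ) ^ 2 := by
      intro p hp
      have h6 : (2 : ℝ) ≤ p := by exact_mod_cast (Nat.prime_of_mem_primeFactors hp).two_le
      refine ⟨?_, by nlinarith⟩
      have h7 : (4 / 3 : ℝ) ≤ √(p : ℝ) := by
        rw [Real.le_sqrt (by norm_num) (by linarith)]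
        linarith
      rw [inv_le_comm₀ (by linarith) (by norm_num)]
      linarith
    refine Finset.prod_le_prod (fun p hp => ?_) fun p hp => ?_
    · rw [inv_nonneg]
      have := (h5 p hp).1
      linarith
    · obtain ⟨h6, h7⟩ := h5 p hp
      rw [inv_le_comm₀ (by linarith) (by linarith)]
      have h8 : ((p : ℝ) ^ 2)⁻¹ ≤ 4⁻¹ := inv_anti₀ (by norm_num) h7
      linarith
  refine h4.trans ?_
  rw [Finset.prod_pow, ← Nat.cast_prod]
  have h9 : ∏ p ∈ q.primeFactors, p ≤ q := Nat.le_of_dvd (by omega) (Nat.prod_primeFactors_dvd q)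
  have h10 : ((∏ p ∈ q.primeFactors, p : ℕ) : ℝ) ≤ q := by exact_mod_cast h9
  exact pow_le_pow_left₀ (Nat.cast_nonneg _) h10 2

private theorem MUW_triv (v : ℕ) : |((∑ n ∈ Ioc 0 v, ArithmeticFunction.moebius n : ℤ) : ℝ)| ≤ v := by
  push_cast
  refine (abs_sum_le_sum_abs _ _).trans ?_
  have h1 : ∀ n ∈ Ioc 0 v, |((ArithmeticFunction.moebius n : ℤ) : ℝ)| ≤ 1 := by
    intro n _
    have h2 := ArithmeticFunction.abs_moebius_le_one (n := n)
    rw [← Int.cast_abs]
    exact_mod_cast h2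
  refine (sum_le_sum h1).trans ?_
  rw [sum_const, Nat.card_Ioc, nsmul_eq_mul]
  simp

private theorem MUW_prin (hMWI : MWI_stmt) (A B : ℕ) : ∃ x₀ : ℝ, ∀ x : ℝ, x₀ ≤ x → ∀ q : ℕ, 1 ≤ q →
    (q : ℝ) ≤ Real.log x ^ B → ∀ u : ℕ, (u : ℝ) ≤ x →
    |((∑ n ∈ Ioc 0 u, MUW_m q n : ℤ) : ℝ)| ≤ x / Real.log x ^ A := by
  obtain ⟨x₁, H1⟩ := MUW_one hMWI (A + 2 * B + 1)
  have hlim : ∀ᶠ x : ℝ in Filter.atTop, Real.log x ^ (A + 2 * B) ≤ x ^ (1 / 4 : ℝ) := by
    have h := (isLittleO_log_rpow_rpow_atTop ((A + 2 * B : ℕ) : ℝ) (show (0 : ℝ) < 1 / 4 by norm_num)).bound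
      (show (0 : ℝ) < 1 by norm_num)
    filter_upwards [h, Filter.eventually_ge_atTop (1 : ℝ)] with x hx hx1
    rw [Real.rpow_natCast, Real.norm_eq_abs, Real.norm_eq_abs, one_mul] at hx
    have h1 : 0 ≤ Real.log x := Real.log_nonneg hx1
    rw [abs_of_nonneg (pow_nonneg h1 _), abs_of_nonneg (Real.rpow_nonneg (by linarith) _)] at hx
    exact hx
  obtain ⟨x₂, H2⟩ := Filter.eventually_atTop.1 hlim
  refine ⟨max (max (x₁ ^ 2) x₂) (Real.exp (2 ^ (A + 2 * B + 1))), ?_⟩
  intro x hx q hq hqB u hu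
  have hx1 : x₁ ^ 2 ≤ x := (le_max_left _ _).trans ((le_max_left _ _).trans hx)
  have hx2 : x₂ ≤ x := (le_max_right _ _).trans ((le_max_left _ _).trans hx)
  have hx3 : Real.exp (2 ^ (A + 2 * B + 1)) ≤ x := (le_max_right _ _).trans hx
  have hxpos : 0 < x := (Real.exp_pos _).trans_le hx3
  have hL2 : (2 : ℝ) ^ (A + 2 * B + 1) ≤ Real.log x := by
    rw [← Real.log_exp (2 ^ (A + 2 * B + 1))]
    exact Real.log_le_log (Real.exp_pos _) hx3
  have hxL := H2 x hx2
  set L := Real.log x with hLdef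
  have hL1 : 1 ≤ L := (one_le_pow₀ (by norm_num)).trans hL2
  have hL0 : 0 < L := by linarith
  have hsx : x₁ ≤ √x := (le_abs_self _).trans (Real.abs_le_sqrt hx1)
  have hsx0 : 0 < √x := Real.sqrt_pos.2 hxpos
  -- one term
  have hterm : ∀ m ∈ Ioc 0 u, |((∑ d ∈ Ioc 0 (u / m), ArithmeticFunction.moebius d : ℤ) : ℝ)| ≤
      (√(m : ℝ))⁻¹ * (x / L ^ (A + 2 * B)) := by
    intro m hm
    have hm0 : (1 : ℝ) ≤ m := by exact_mod_cast (mem_Ioc.1 hm).1
    have hmpos : (0 : ℝ) < m := by linarith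
    have hsm : 0 < √(m : ℝ) := Real.sqrt_pos.2 hmpos
    have hsm1 : 1 ≤ √(m : ℝ) := by rw [Real.one_le_sqrt]; exact hm0
    have hum : ((u / m : ℕ) : ℝ) ≤ x / m := by
      refine Nat.cast_div_le.trans ?_
      exact div_le_div_of_nonneg_right hu hmpos.le
    have hinv : 1 / (m : ℝ) = (√(m : ℝ))⁻¹ * (√(m : ℝ))⁻¹ := by
      rw [← mul_inv, Real.mul_self_sqrt hmpos.le, one_div]
    by_cases hc : (m : ℝ) ≤ √x
    · -- small m
      have h1 : √x ≤ x / m := by
        rw [le_div_iff₀ hmpos]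
        calc √x * m ≤ √x * √x := mul_le_mul_of_nonneg_left hc hsx0.le
          _ = x := Real.mul_self_sqrt hxpos.le
      have h2 := H1 (x / m) (hsx.trans h1) (u / m) hum
      refine h2.trans ?_
      have h3 : L / 2 ≤ Real.log (x / m) := by
        have h4 := Real.log_le_log hsx0 h1
        rw [Real.log_sqrt hxpos.le] at h4
        exact h4
      have h5 : (L / 2) ^ (A + 2 * B + 1) ≤ Real.log (x / m) ^ (A + 2 * B + 1) :=
        pow_le_pow_left₀ (by positivity) h3 _
      have h6 : L ^ (A + 2 * B) ≤ (L / 2) ^ (A + 2 * B + 1) := by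
        rw [div_pow, le_div_iff₀ (by positivity), pow_succ L]
        exact mul_le_mul_of_nonneg_left hL2 (by positivity)
      calc x / m / Real.log (x / m) ^ (A + 2 * B + 1) ≤ x / m / L ^ (A + 2 * B) :=
            div_le_div_of_nonneg_left (by positivity) (by positivity) (h6.trans h5)
        _ = 1 / (m : ℝ) * (x / L ^ (A + 2 * B)) := by ring
        _ ≤ (√(m : ℝ))⁻¹ * (x / L ^ (A + 2 * B)) := by
            refine mul_le_mul_of_nonneg_right ?_ (by positivity)
            rw [hinv]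
            have h7 : (√(m : ℝ))⁻¹ ≤ 1 := inv_le_one_of_one_le₀ hsm1
            have h8 : 0 ≤ (√(m : ℝ))⁻¹ := by positivity
            nlinarith
    · -- large m
      rw [not_le] at hc
      refine (MUW_triv _).trans (hum.trans ?_)
      have h1 : x ^ (1 / 4 : ℝ) ≤ √(m : ℝ) := by
        rw [Real.le_sqrt (by positivity) hmpos.le, ← Real.rpow_natCast, ← Real.rpow_mul hxpos.le]
        rw [show (1 / 4 : ℝ) * ((2 : ℕ) : ℝ) = 1 / 2 by norm_num, ← Real.sqrt_eq_rpow]
        exact hc.le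
      have h2 : (√(m : ℝ))⁻¹ ≤ (L ^ (A + 2 * B))⁻¹ := inv_anti₀ (by positivity) (hxL.trans h1)
      calc x / m = x * (1 / (m : ℝ)) := by ring
        _ = (√(m : ℝ))⁻¹ * (x * (√(m : ℝ))⁻¹) := by rw [hinv]; ring
        _ ≤ (√(m : ℝ))⁻¹ * (x * (L ^ (A + 2 * B))⁻¹) := by
            refine mul_le_mul_of_nonneg_left (mul_le_mul_of_nonneg_left h2 hxpos.le) (by positivity)
        _ = (√(m : ℝ))⁻¹ * (x / L ^ (A + 2 * B)) := by rw [div_eq_mul_inv]
  -- sum
  rw [← MUW_id q hq, ArithmeticFunction.sum_Ioc_mul_eq_sum_sum]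
  have e1 : ((∑ m ∈ Ioc 0 u, MUW_s q.primeFactors m * ∑ d ∈ Ioc 0 (u / m), ArithmeticFunction.moebius d : ℤ) : ℝ) =
      ∑ m ∈ (Ioc 0 u).filter (fun m => m ∈ Nat.factoredNumbers q.primeFactors),
        ((∑ d ∈ Ioc 0 (u / m), ArithmeticFunction.moebius d : ℤ) : ℝ) := by
    rw [Int.cast_sum, sum_filter]
    refine sum_congr rfl fun m _ => ?_
    rw [Int.cast_mul, MUW_s_apply]
    split_ifs
    · rw [Int.cast_one, one_mul]
    · rw [Int.cast_zero, zero_mul]
  rw [e1]
  refine (abs_sum_le_sum_abs _ _).trans ?_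
  refine (sum_le_sum fun m hm => hterm m (mem_filter.1 hm).1).trans ?_
  rw [← sum_mul]
  have h1 := MUW_euler q hq ((Ioc 0 u).filter (fun m => m ∈ Nat.factoredNumbers q.primeFactors))
    (fun m hm => (mem_filter.1 hm).2)
  have h2 : (q : ℝ) ^ 2 ≤ L ^ (2 * B) := by
    calc (q : ℝ) ^ 2 ≤ (L ^ B) ^ 2 := pow_le_pow_left₀ (Nat.cast_nonneg _) hqB 2
      _ = L ^ (2 * B) := by
        rw [← pow_mul]
        congr 1
        ring
  calc _ ≤ L ^ (2 * B) * (x / L ^ (A + 2 * B)) := mul_le_mul_of_nonneg_right (h1.trans h2) (by positivity)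
    _ = x / L ^ A := by
      rw [pow_add]
      field_simp

theorem MUW (hMWI : MWI_stmt) : MUW_stmt := by
  intro A B
  obtain ⟨x₁, H1⟩ := MUW_ne hMWI A B
  obtain ⟨x₂, H2⟩ := MUW_prin hMWI A B
  refine ⟨max x₁ x₂, fun x hx q hq hqB χ u hu => ?_⟩
  have hx1 := (le_max_left _ _).trans hx
  have hx2 := (le_max_right _ _).trans hx
  by_cases hχ : χ = 1
  · subst hχ
    have key := H2 x hx2 q hq hqB u hu
    refine le_trans (le_of_eq ?_) key
    have e : ∑ n ∈ Ioc 0 u, mg (fun n => (1 : DirichletCharacter ℂ q) (n : ZMod q)) n =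
        (((∑ n ∈ Ioc 0 u, MUW_m q n : ℤ) : ℝ) : ℂ) := by
      push_cast
      refine sum_congr rfl fun n _ => ?_
      unfold mg
      beta_reduce
      rw [MUW_m_apply]
      by_cases hn : n.Coprime q
      · rw [if_pos hn, MulChar.one_apply ((ZMod.isUnit_iff_coprime n q).2 hn), mul_one]
      · rw [if_neg hn, MulChar.map_nonunit _ (fun h => hn ((ZMod.isUnit_iff_coprime n q).1 h)), mul_zero,
          Int.cast_zero]
    rw [e, Complex.norm_real, Real.norm_eq_abs]
  · have hq2 : 2 ≤ q := by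
      by_contra h
      have h1 : q = 1 := by omega
      subst h1
      exact hχ (Subsingleton.elim _ _)
    exact H1 x hx1 q hq2 hqB χ hχ u hu

end Pool.Agent.YB
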